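import Pool.Agent.H16.Flow5

set_option autoImplicit false

open MeasureTheory Pool.Agent.H16.Flow

namespace Pool.Agent.Results.MP_0b8746_pr.FlowShop

/-- For every law `F` on `[0, ∞)` with finite second moment the claim of Q1 fails: for all `c > 0`
and `n₀` there are `m ≥ 3` and `n ≥ n₀` such that `L^*` is integrable and
`E[α^*_{m,n}] = E[L^* - (n + m - 1) τ] < c √(mn)`. -/
theorem result (F : Measure ℝ) [IsProbabilityMeasure F] (hF : F (Set.Iio 0) = 0)
    (h2 : Integrable (fun x => x ^ 2) F) (c : ℝ) (hc : 0 < c) (n₀ : ℕ) :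
    ∃ m n : ℕ, 3 ≤ m ∧ n₀ ≤ n ∧ Integrable (fun T => opt T) (times F n m) ∧
      ∫ T, (opt T - ((n : ℝ) + m - 1) * ∫ x, x ∂F) ∂(times F n m) < c * √((m : ℝ) * n) :=
  main F hF h2 c hc n₀

end Pool.Agent.Results.MP_0b8746_pr.FlowShop
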